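import Pool.Agent.Helper86_DA.Ast

/-!
Closed chains: no fork of a caterpillar in the chain (module A2).
-/

set_option autoImplicit false
set_option linter.unusedSectionVars false
set_option linter.unusedVariables false

namespace CLB.H65

open Finset Classical
open H3DA (Q neg nr)
open CLB.H95
open CLB.H86
open CLB.H3 (CExt Cat IsTwo)

variable {V : Type*} {H : SimpleGraph V} {R : V → Bool} {k : ℕ} {X Y : ℤ → V}

lemma L2_per (h : CC H R k X Y) {i j : ℤ} (hd : (k : ℤ) ∣ i - j) : L2 H R X Y i ↔ L2 H R X Y j := by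
  have e1 := (h.eqX hd).2
  have e2 := (h.eqX (i := i + 2) (j := j + 2) (by rwa [show i + 2 - (j + 2) = i - j by ring])).1
  unfold L2
  rw [e1, e2]

lemma statC_of (h : CC H R k X Y) {m : ℕ} {c : ℕ → V} (hs : StatZ X Y m c) :
    StatC k (fun i : ℕ => X i) (fun i : ℕ => Y i) m c := by
  unfold StatC
  unfold StatZ at hs
  simp only [h.inC_iff]
  exact hs

/-- The vertices of degree two with both neighbours in the chain. -/
def Eset (H : SimpleGraph V) (R : V → Bool) (X Y : ℤ → V) : Set V :=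
  {z | ∃ a b, IsTwo H R z a b ∧ InZ X Y a ∧ InZ X Y b}

lemma eset_of_L2 {i : ℤ} {v : V} (hv : IsTwo H R v (Y i) (X (i + 2))) : v ∈ Eset H R X Y :=
  ⟨_, _, hv, inZ_Y X Y i, inZ_X X Y (i + 2)⟩

variable [Fintype V]

/-- The uncovered neighbours of a vertex next to a vertex of degree two. -/
lemma cst_zero (hG : ClassC H R) (h : CC H R k X Y) {Φ : V → V → Finset Q}
    (htr : ∀ v z, z ∈ Eset H R X Y → Φ v z = ∅) {v w : V} (hv : InZ X Y v) (hw : H.Adj v w)
    (hwc : ¬ Cov H R w) (hwE : w ∈ Eset H R X Y) : cst H R Φ v = 0 := by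
  unfold cst
  refine Finset.sum_eq_zero fun z hz => ?_
  rw [mem_prt] at hz
  have : z = w := h.unc_unique hG hv hz.1 hw hz.2 hwc
  rw [this, htr v w hwE, Finset.card_empty]

lemma cst_Y (hG : ClassC H R) (h : CC H R k X Y) {Φ : V → V → Finset Q}
    (htr : ∀ v z, z ∈ Eset H R X Y → Φ v z = ∅) {i : ℤ} (hL : L2 H R X Y i) :
    cst H R Φ (Y i) = 0 := by
  obtain ⟨v, hv⟩ := hL
  exact cst_zero hG h htr (inZ_Y X Y i) hv.2.1.symm hv.1 (eset_of_L2 hv)

lemma cst_X (hG : ClassC H R) (h : CC H R k X Y) {Φ : V → V → Finset Q}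
    (htr : ∀ v z, z ∈ Eset H R X Y → Φ v z = ∅) {i : ℤ} (hL : L2 H R X Y i) :
    cst H R Φ (X (i + 2)) = 0 := by
  obtain ⟨v, hv⟩ := hL
  exact cst_zero hG h htr (inZ_X X Y _) hv.2.2.1.symm hv.1 (eset_of_L2 hv)

/-- The conflicts. -/
lemma conflict (h : CC H R k X Y) (hk : 4 ≤ k) {mu : ℕ → Q} {f : V → Q}
    (hmu : ∀ n : ℕ, 1 ≤ n → n ≤ k → L2 H R X Y n →
      mu n ≠ mu (if n + 2 ≤ k then n + 2 else n + 2 - k)) {i : ℤ} (hL : L2 H R X Y i) :
    lbl k (fun i : ℕ => X i) (fun i : ℕ => Y i) mu f (Y i) ≠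
      neg (lbl k (fun i : ℕ => X i) (fun i : ℕ => Y i) mu f (X (i + 2))) := by
  obtain ⟨n, h1, h2, h3⟩ := h.repr i
  have hL' : L2 H R X Y n := (L2_per h h3).1 hL
  have e1 : Y i = Y (n : ℤ) := (h.eqX h3).2
  have key := hmu n h1 h2 hL'
  have hev := h.even
  rw [e1]
  have ly : lbl k (fun i : ℕ => X i) (fun i : ℕ => Y i) mu f (Y (n : ℤ)) = neg (sg n (mu n)) :=
    lbl_y h.chn h1 h2
  by_cases hn : n + 2 ≤ k
  · rw [if_pos hn] at key
    have e2 : X (i + 2) = X ((n + 2 : ℕ) : ℤ) := by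
      refine (h.eqX ?_).1
      push_cast
      rwa [show i + 2 - ((n : ℤ) + 2) = i - n by ring]
    have lx : lbl k (fun i : ℕ => X i) (fun i : ℕ => Y i) mu f (X ((n + 2 : ℕ) : ℤ)) =
        sg (n + 2) (mu (n + 2)) := lbl_x h.chn (by omega) hn
    rw [e2, ly, lx]
    intro he
    have he' := H3DA.neg_inj he
    have : sg (n + 2) (mu (n + 2)) = sg n (mu (n + 2)) := by
      rw [show n + 2 = n + 1 + 1 by rfl, sg_succ, sg_succ, H3DA.neg_neg]
    rw [this] at he'
    have h4 := congrArg (sg n) he'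
    rw [sg_sg, sg_sg] at h4
    exact key h4
  · rw [if_neg hn] at key
    have e2 : X (i + 2) = X ((n + 2 - k : ℕ) : ℤ) := by
      refine (h.eqX ?_).1
      obtain ⟨q, hq⟩ := h3
      refine ⟨q + 1, ?_⟩
      rw [mul_add, ← hq]
      push_cast [Nat.cast_sub (show k ≤ n + 2 by omega)]
      ring
    have lx : lbl k (fun i : ℕ => X i) (fun i : ℕ => Y i) mu f (X ((n + 2 - k : ℕ) : ℤ)) =
        sg (n + 2 - k) (mu (n + 2 - k)) := lbl_x h.chn (by omega) (by omega)
    rw [e2, ly, lx]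
    intro he
    have he' := H3DA.neg_inj he
    have : sg (n + 2 - k) (mu (n + 2 - k)) = sg n (mu (n + 2 - k)) := by
      unfold sg
      by_cases hp : n % 2 = 0
      · rw [if_pos hp, if_pos (by omega)]
      · rw [if_neg hp, if_neg (by omega)]
    rw [this] at he'
    have h4 := congrArg (sg n) he'
    rw [sg_sg, sg_sg] at h4
    exact key h4

/-- Both neighbours in the chain. -/
lemma two_inside (hG : ClassC H R) (h : CC H R k X Y) (hk : 4 ≤ k)
    (tn : ∀ z a b : V, ¬ Cov H R z → a ≠ b → H.Adj z a → H.Adj z b →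
      InZ X Y a → InZ X Y b → ∃ i, (a = Y i ∧ b = X (i + 2)) ∨ (b = Y i ∧ a = X (i + 2)))
    {mu : ℕ → Q} {f : V → Q}
    (hmu : ∀ n : ℕ, 1 ≤ n → n ≤ k → L2 H R X Y n →
      mu n ≠ mu (if n + 2 ≤ k then n + 2 else n + 2 - k)) {v a b : V} (hT : IsTwo H R v a b)
    (ha : InZ X Y a) (hb : InZ X Y b) :
    lbl k (fun i : ℕ => X i) (fun i : ℕ => Y i) mu f a ≠
      neg (lbl k (fun i : ℕ => X i) (fun i : ℕ => Y i) mu f b) := by
  obtain ⟨i, ⟨rfl, rfl⟩ | ⟨rfl, rfl⟩⟩ := tn v a b hT.1 hT.2.2.2.1 hT.2.1 hT.2.2.1 ha hb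
  · exact conflict h hk hmu ⟨v, hT⟩
  · have := conflict (f := f) h hk hmu ⟨v, isTwo_symm hT⟩
    exact H3DA.ne_neg_symm this

/-- The forbidden label of a conflict inside the chain. -/
noncomputable def kap (H : SimpleGraph V) (R : V → Bool) (k : ℕ) (X Y : ℤ → V) (v : V)
    (g : ℕ → Q) : Finset Q :=
  if hh : ∃ n : ℕ, 3 ≤ n ∧ n + 1 ≤ k ∧ v = X n ∧ L2 H R X Y ((n : ℤ) - 2) then
    {g (hh.choose - 2)} else ∅

lemma kap_of (h : CC H R k X Y) {v : V} {n : ℕ} (h1 : 3 ≤ n) (h2 : n + 1 ≤ k) (hv : v = X n)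
    (hL : L2 H R X Y ((n : ℤ) - 2)) (g : ℕ → Q) : kap H R k X Y v g = {g (n - 2)} := by
  have hh : ∃ n : ℕ, 3 ≤ n ∧ n + 1 ≤ k ∧ v = X n ∧ L2 H R X Y ((n : ℤ) - 2) := ⟨n, h1, h2, hv, hL⟩
  unfold kap
  rw [dif_pos hh]
  obtain ⟨a1, a2, a3, a4⟩ := hh.choose_spec
  have : hh.choose = n :=
    h.chn.injx _ _ (by omega) (by omega) (by omega) (by omega) (a3.symm.trans hv)
  rw [this]

lemma kap_ne {v : V} {g : ℕ → Q} (hne : kap H R k X Y v g ≠ ∅) :
    ∃ n : ℕ, 3 ≤ n ∧ n + 1 ≤ k ∧ v = X n ∧ L2 H R X Y ((n : ℤ) - 2) := by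
  by_contra hh
  apply hne
  unfold kap
  rw [dif_neg hh]

lemma kap_empty {v : V} (hv : ¬ ∃ n : ℕ, 3 ≤ n ∧ n + 1 ≤ k ∧ v = X n ∧ L2 H R X Y ((n : ℤ) - 2))
    (g : ℕ → Q) : kap H R k X Y v g = ∅ := by
  unfold kap
  rw [dif_neg hv]

lemma kap_Y (h : CC H R k X Y) (i : ℤ) (g : ℕ → Q) : kap H R k X Y (Y i) g = ∅ := by
  refine kap_empty ?_ g
  rintro ⟨n, -, -, e, -⟩
  exact h.xy n i e.symm

lemma kap_Xe (h : CC H R k X Y) {i : ℕ} (h1 : 1 ≤ i) (h2 : i ≤ k) (hi : i ≤ 2 ∨ i = k)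
    (g : ℕ → Q) : kap H R k X Y (X (i : ℤ)) g = ∅ := by
  refine kap_empty ?_ g
  rintro ⟨n, h3, h4, e, -⟩
  have : i = n := h.chn.injx _ _ h1 h2 (by omega) (by omega) e
  omega

lemma kap_ok (hG : ClassC H R) (h : CC H R k X Y) (hk : 4 ≤ k) {Φ : V → V → Finset Q}
    (h2 : ∀ v z, (Φ v z).card ≤ 2) (htr : ∀ v z, z ∈ Eset H R X Y → Φ v z = ∅)
    (hL : L2 H R X Y (-1)) :
    Kap H R k (fun i : ℕ => X i) (fun i : ℕ => Y i) Φ (kap H R k X Y) where
  two := h2
  one v g := by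
    unfold kap
    split_ifs <;> simp
  dep i h1 h3 g g' hs := by
    refine ⟨?_, ?_⟩
    · show kap H R k X Y (X (i : ℤ)) g = kap H R k X Y (X (i : ℤ)) g'
      by_cases hh : ∃ n : ℕ, 3 ≤ n ∧ n + 1 ≤ k ∧ X (i : ℤ) = X n ∧ L2 H R X Y ((n : ℤ) - 2)
      · obtain ⟨n, a1, a2, a3, a4⟩ := hh
        have hin : i = n := h.chn.injx _ _ h1 h3 (by omega) (by omega) a3
        rw [kap_of h a1 a2 a3 a4, kap_of h a1 a2 a3 a4, hs (n - 2) (by omega) (by omega)]
      · rw [kap_empty hh, kap_empty hh]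
    · show kap H R k X Y (Y (i : ℤ)) g = kap H R k X Y (Y (i : ℤ)) g'
      rw [kap_Y h, kap_Y h]
  unch i h1 h3 g := by
    refine ⟨fun hne => ?_, fun hne => absurd (kap_Y h _ _) hne⟩
    obtain ⟨n, a1, a2, a3, a4⟩ := kap_ne hne
    have := cst_X hG h htr a4
    rw [sub_add_cancel] at this
    show cst H R Φ (X (i : ℤ)) = 0
    have a3' : X (i : ℤ) = X (n : ℤ) := a3
    rw [a3']; exact this
  st2 g g' := by
    refine ⟨?_, ?_⟩
    · show kap H R k X Y (X ((2 : ℕ) : ℤ)) g = kap H R k X Y (X ((2 : ℕ) : ℤ)) g'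
      rw [kap_Xe h (by omega) (by omega) (Or.inl le_rfl), kap_Xe h (by omega) (by omega) (Or.inl le_rfl)]
    · show kap H R k X Y (Y ((2 : ℕ) : ℤ)) g = kap H R k X Y (Y ((2 : ℕ) : ℤ)) g'
      rw [kap_Y h, kap_Y h]
  lastx g := kap_Xe h (by omega) le_rfl (Or.inr rfl) g
  lasty g := kap_Y h _ g
  yp := by
    have e : Y ((k - 1 : ℕ) : ℤ) = Y (-1) := by
      refine (h.eqX ⟨1, ?_⟩).2
      push_cast [Nat.cast_sub (show 1 ≤ k by omega)]
      ring
    show cst H R Φ (Y ((k - 1 : ℕ) : ℤ)) = 0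
    rw [e]; exact cst_Y hG h htr hL
  ypk g := kap_Y h _ g
  x1 := by
    have := cst_X hG h htr hL
    rw [show (-1 : ℤ) + 2 = ((1 : ℕ) : ℤ) by norm_num] at this
    exact this

/-- The case with a vertex of degree two before a gap. -/
lemma main_gap (ct1 : Ct1H) (ct2 : Ct2H) (fs : FsH) (hG : ClassC H R) (hc : Crit H R)
    (h : CC H R k X Y) (hk : 4 ≤ k)
    (tn : ∀ z a b : V, ¬ Cov H R z → a ≠ b → H.Adj z a → H.Adj z b →
      InZ X Y a → InZ X Y b → ∃ i, (a = Y i ∧ b = X (i + 2)) ∨ (b = Y i ∧ a = X (i + 2)))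
    (hst : ∀ m z c, Cat H R m z c → StatZ X Y m c) (hL : L2 H R X Y (-1))
    (hn : ¬ L2 H R X Y 0) : False := by
  obtain ⟨f, hf⟩ := exists_off h.chn hc
  obtain ⟨Φ, hΦ⟩ := exists_forb h.chn hf (Eset H R X Y) (X 1) (X 1)
  have hK := kap_ok hG h hk hΦ.two hΦ.triv hL
  have hev := h.even
  -- periodicity
  have p1 : L2 H R X Y ((k : ℤ) - 2) ↔ L2 H R X Y (-2) := L2_per h ⟨1, by ring⟩
  have p0 : L2 H R X Y (k : ℤ) ↔ L2 H R X Y 0 := L2_per h ⟨1, by ring⟩
  -- it is enough to find labels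
  have fin : ∀ mu : ℕ → Q,
      (∀ i, 1 ≤ i → i ≤ k → mu i ∈ lst H R (fun i : ℕ => X i) (fun i : ℕ => Y i) Φ i) →
      (∀ i, 1 ≤ i → i < k → nr (mu i) (mu (i + 1)) = true) → nr (mu k) (mu 1) = true →
      (∀ n : ℕ, 1 ≤ n → n ≤ k → L2 H R X Y n →
        mu n ≠ mu (if n + 2 ≤ k then n + 2 else n + 2 - k)) → False := by
    intro mu m1 m2 m3 m4
    refine chain_contra hG hc h.chn (Or.inl h.lkc) hf (mu := mu) ?_
    refine fit_of_lists h.chn hΦ m1 m2 (fun _ => m3) ?_ ?_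
    · intro v a b hT ha hor
      rw [h.inC_iff] at ha hor
      have hb : InZ X Y b := by
        rcases hor with ⟨a', b', hT', ha', hb'⟩ | hb
        · rcases hT'.2.2.2.2.2.2 b hT.2.2.1 with e | e
          · rw [e]; exact ha'
          · rw [e]; exact hb'
        · exact hb
      exact two_inside hG h hk tn m4 hT ha hb
    · intro m z c hC hex hor
      rcases hor with h1 | ⟨i, h1, h2, a, b, hT, -, -⟩
      · exact absurd (statC_of h (hst m z c hC)) h1
      · exact (isTwo_not_cat hC h1 h2 hT).elim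
  -- conflicts given by kap
  have hkap : ∀ mu : ℕ → Q, (∀ i, 1 ≤ i → i ≤ k → mu i ∉ kap H R k X Y (X (i : ℤ)) mu) →
      ∀ n : ℕ, 1 ≤ n → n + 3 ≤ k → L2 H R X Y n → mu n ≠ mu (n + 2) := by
    intro mu hm n h1 h2 hLn he
    have h3 := hm (n + 2) (by omega) (by omega)
    have h4 : L2 H R X Y (((n + 2 : ℕ) : ℤ) - 2) := by
      rw [show ((n + 2 : ℕ) : ℤ) - 2 = (n : ℤ) by push_cast; ring]; exact hLn
    rw [kap_of h (by omega) (by omega) rfl h4, show n + 2 - 2 = n by omega, mem_singleton] at h3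
    exact h3 he.symm
  by_cases hL2 : L2 H R X Y (-2)
  · -- a further vertex of degree two
    have e0 : X ((k : ℕ) : ℤ) = X 0 := (h.eqX ⟨1, by ring⟩).1
    have e2 : Y ((k - 2 : ℕ) : ℤ) = Y (-2) := by
      refine (h.eqX ⟨1, ?_⟩).2
      push_cast [Nat.cast_sub (show 2 ≤ k by omega)]
      ring
    have c0 : cst H R Φ (X ((k : ℕ) : ℤ)) = 0 := by
      have := cst_X hG h hΦ.triv hL2
      rw [show (-2 : ℤ) + 2 = 0 by norm_num] at this
      rw [e0]; exact this
    have c2 : cst H R Φ (Y ((k - 2 : ℕ) : ℤ)) = 0 := by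
      rw [e2]; exact cst_Y hG h hΦ.triv hL2
    by_cases hk6 : 6 ≤ k
    · obtain ⟨mu, m1, m2, m3, m4, m5⟩ := asm2 hG h.chn h.lkc hK ct2 hk6 c0 c2 (fun g => kap_Y h _ g)
      refine fin mu (fun i h1 h2 => (m1 i h1 h2).1) m2 m3 ?_
      intro n h1 h2 hLn
      by_cases hn1 : n + 3 ≤ k
      · rw [if_pos (by omega)]
        exact hkap mu (fun i h1 h2 => (m1 i h1 h2).2.1) n h1 hn1 hLn
      · by_cases hn2 : n + 2 = k
        · rw [if_pos (by omega), hn2, show n = k - 2 by omega]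
          exact m5.symm
        · by_cases hn3 : n + 1 = k
          · rw [if_neg (by omega), show n + 2 - k = 1 by omega, show n = k - 1 by omega]
            exact m4
          · have : n = k := by omega
            subst this
            exact absurd (p0.1 hLn) hn
    · -- four units
      have hk4 : k = 4 := by omega
      subst hk4
      have cx1 := hK.x1
      have cy3 := hK.yp
      have l1 := lst_card (G := H) (R := R) (x := fun i : ℕ => X i) (y := fun i : ℕ => Y i) Φ 1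
      have l2 := lst_card (G := H) (R := R) (x := fun i : ℕ => X i) (y := fun i : ℕ => Y i) Φ 2
      have l3 := lst_card (G := H) (R := R) (x := fun i : ℕ => X i) (y := fun i : ℕ => Y i) Φ 3
      have l4 := lst_card (G := H) (R := R) (x := fun i : ℕ => X i) (y := fun i : ℕ => Y i) Φ 4
      have y1 := cst_le hΦ.two (h.chn.prt_y hG h.lkc (i := 1) (by omega) (by omega))
      have x2 := cst_le hΦ.two (h.chn.prt_x hG h.lkc (i := 2) (by omega) (by omega))
      have x3 := cst_le hΦ.two (h.chn.prt_x hG h.lkc (i := 3) (by omega) (by omega))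
      have y4 := cst_le hΦ.two (h.chn.prt_y hG h.lkc (i := 4) (by omega) (by omega))
      have c0' : cst H R Φ (X ((4 : ℕ) : ℤ)) = 0 := c0
      have c2' : cst H R Φ (Y ((2 : ℕ) : ℤ)) = 0 := c2
      have cy3' : cst H R Φ (Y ((3 : ℕ) : ℤ)) = 0 := cy3
      obtain ⟨t1, q1, t2, q2, t3, q3, t4, q4, n1, n2, n3, n4, d1, d2⟩ := fs
        (lst H R (fun i : ℕ => X i) (fun i : ℕ => Y i) Φ 1)
        (lst H R (fun i : ℕ => X i) (fun i : ℕ => Y i) Φ 2)
        (lst H R (fun i : ℕ => X i) (fun i : ℕ => Y i) Φ 3)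
        (lst H R (fun i : ℕ => X i) (fun i : ℕ => Y i) Φ 4) (by omega) (by omega) (by omega)
        (by omega)
      refine fin (fun i => if i = 1 then t1 else if i = 2 then t2 else if i = 3 then t3 else t4)
        ?_ ?_ ?_ ?_
      · intro i h1 h2
        have : i = 1 ∨ i = 2 ∨ i = 3 ∨ i = 4 := by omega
        rcases this with rfl | rfl | rfl | rfl
        · exact q1
        · exact q2
        · exact q3
        · exact q4
      · intro i h1 h2
        have : i = 1 ∨ i = 2 ∨ i = 3 := by omega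
        rcases this with rfl | rfl | rfl
        · exact n1
        · exact n2
        · exact n3
      · exact n4
      · intro n h1 h2 hLn
        have : n = 1 ∨ n = 2 ∨ n = 3 ∨ n = 4 := by omega
        rcases this with rfl | rfl | rfl | rfl
        · exact d1
        · exact d2
        · exact d1.symm
        · exact absurd (p0.1 hLn) hn
  · obtain ⟨mu, m1, m2, m3, m4⟩ := asm1 hG h.chn h.lkc hK ct1 hk
      (fun g => kap_Xe h (i := 1) le_rfl (by omega) (Or.inl (by omega)) g)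
    refine fin mu (fun i h1 h2 => (m1 i h1 h2).1) m2 m3 ?_
    intro n h1 h2 hLn
    by_cases hn1 : n + 3 ≤ k
    · rw [if_pos (by omega)]
      exact hkap mu (fun i h1 h2 => (m1 i h1 h2).2.1) n h1 hn1 hLn
    · by_cases hn2 : n + 2 = k
      · exfalso
        apply hL2
        rw [← p1, show ((k : ℤ) - 2) = (n : ℤ) by omega]
        exact hLn
      · by_cases hn3 : n + 1 = k
        · rw [if_neg (by omega), show n + 2 - k = 1 by omega, show n = k - 1 by omega]
          exact m4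
        · have : n = k := by omega
          subst this
          exact absurd (p0.1 hLn) hn

/-- All conflicts. -/
lemma main_all (al : AllH) (hG : ClassC H R) (hc : Crit H R)
    (h : CC H R k X Y) (hk : 4 ≤ k)
    (tn : ∀ z a b : V, ¬ Cov H R z → a ≠ b → H.Adj z a → H.Adj z b →
      InZ X Y a → InZ X Y b → ∃ i, (a = Y i ∧ b = X (i + 2)) ∨ (b = Y i ∧ a = X (i + 2)))
    (hall : ∀ i, L2 H R X Y i) : False := by
  obtain ⟨f, hf⟩ := exists_off h.chn hc
  obtain ⟨mu, m1, m2, m3⟩ := al k hk h.even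
  -- every vertex of the chain sees a vertex of degree two inside
  have hsee : ∀ v, InZ X Y v → ∃ w, H.Adj v w ∧ w ∈ Eset H R X Y ∧ ¬ Cov H R w := by
    rintro v ⟨i, rfl | rfl⟩
    · obtain ⟨w, hw⟩ := hall (i - 2)
      rw [sub_add_cancel] at hw
      exact ⟨w, hw.2.2.1.symm, ⟨_, _, hw, inZ_Y X Y _, inZ_X X Y _⟩, hw.1⟩
    · obtain ⟨w, hw⟩ := hall i
      exact ⟨w, hw.2.1.symm, ⟨_, _, hw, inZ_Y X Y _, inZ_X X Y _⟩, hw.1⟩
  refine chain_contra hG hc h.chn (Or.inl h.lkc) hf (mu := mu) ?_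
  refine ⟨fun i _ _ => m2 i, fun _ => ?_, ?_, ?_⟩
  · have := m2 k
    rwa [show k + 1 = 1 + k by omega, m1] at this
  · intro v a b hT ha
    rw [h.inC_iff] at ha
    obtain ⟨w, hw1, ⟨a', b', hT', ha', hb'⟩, hw3⟩ := hsee a ha
    have e : v = w := h.unc_unique hG ha hT.2.1.symm hw1 hT.1 hw3
    subst e
    have hb : InZ X Y b := by
      rcases hT'.2.2.2.2.2.2 b hT.2.2.1 with e | e
      · rw [e]; exact ha'
      · rw [e]; exact hb'
    refine two_inside hG h hk tn ?_ hT ha hb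
    intro n h1 h2 _
    by_cases hn : n + 2 ≤ k
    · rw [if_pos hn]; exact m3 n
    · rw [if_neg hn, ← m1 (n + 2 - k), show n + 2 - k + k = n + 2 by omega]
      exact m3 n
  · intro m z c hC hex
    exfalso
    obtain ⟨j, hj, hin⟩ := hex
    rw [h.inC_iff] at hin
    obtain ⟨w, hw1, ⟨a', b', hT', -, -⟩, hw3⟩ := hsee _ hin
    have a1 := cl_mem hC.pos hj
    have e : z (cl m j) = w := h.unc_unique hG hin (cat_adj_cl hC hj) hw1 (hC.unc _ a1.1 a1.2) hw3
    subst e
    exact isTwo_not_cat hC a1.1 a1.2 hT'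

/-- Module A2. -/
theorem thmA (ct1 : Ct1H) (ct2 : Ct2H) (fs : FsH) (al : AllH) (tn : TwoNH) : ThmAH := by
  intro V _ H R k X Y hG hc h hk hst
  by_cases h0 : ∀ i, ¬ L2 H R X Y i
  · -- nothing at all
    refine closed_static hG hc h.chn h.lkc ?_ ?_
    · intro v a b hT ha hb
      rw [h.inC_iff] at ha hb
      obtain ⟨i, ⟨rfl, rfl⟩ | ⟨rfl, rfl⟩⟩ := tn V H R k X Y hG h v a b hT.1 hT.2.2.2.1 hT.2.1
        hT.2.2.1 ha hb
      · exact h0 i ⟨v, hT⟩
      · exact h0 i ⟨v, isTwo_symm hT⟩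
    · intro m z c hC _
      exact statC_of h (hst m z c hC)
  · push Not at h0
    obtain ⟨i₀, hi₀⟩ := h0
    by_cases h1 : ∀ i, L2 H R X Y i
    · exact main_all al hG hc h hk (tn V H R k X Y hG h) h1
    · -- a gap
      obtain ⟨s, hs1, hs2⟩ : ∃ s, L2 H R X Y s ∧ ¬ L2 H R X Y (s + 1) := by
        by_contra hcon
        push Not at hcon
        apply h1
        have hup : ∀ n : ℕ, L2 H R X Y (i₀ + n) := by
          intro n
          induction n with
          | zero => simpa using hi₀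
          | succ n ih =>
            have := hcon _ ih
            rwa [add_assoc] at this
        intro i
        obtain ⟨n, hn⟩ : ∃ n : ℕ, (k : ℤ) ∣ (i₀ + n) - i := by
          refine ⟨((i - i₀) % k).toNat, ?_⟩
          have h2 := Int.emod_nonneg (i - i₀) (show (k : ℤ) ≠ 0 by omega)
          rw [Int.toNat_of_nonneg h2]
          have h4 := Int.emod_add_mul_ediv (i - i₀) k
          refine ⟨-((i - i₀) / k), ?_⟩
          linarith
        exact (L2_per h hn).1 (hup n)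
      have h' := h.shift (s + 1)
      refine main_gap ct1 ct2 fs hG hc h' hk (tn V H R k _ _ hG h') ?_ ?_ ?_
      · intro m z c hC
        have := hst m z c hC
        unfold StatZ at this ⊢
        simp only [inZ_shift]
        exact this
      · show ∃ v, IsTwo H R v (Y (-1 + (s + 1))) (X (-1 + 2 + (s + 1)))
        rw [show -1 + (s + 1) = s by ring, show -1 + 2 + (s + 1) = s + 2 by ring]
        exact hs1
      · rintro ⟨v, hv⟩
        apply hs2
        refine ⟨v, ?_⟩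
        have e1 : Y (0 + (s + 1)) = Y (s + 1) := by rw [zero_add]
        have e2 : X (0 + 2 + (s + 1)) = X (s + 1 + 2) := by
          rw [show (0 : ℤ) + 2 + (s + 1) = s + 1 + 2 by ring]
        have hv' : IsTwo H R v (Y (0 + (s + 1))) (X (0 + 2 + (s + 1))) := hv
        rw [e1, e2] at hv'
        exact hv'

end CLB.H65
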